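import Pool.Agent.P.MP_111ca2_co.Iff5

namespace Pool.Agent.Results.MP_111ca2_co.LargeFields

/-- For every index `n`, in all finite fields beyond a bound depending on `n`, the non-zero `n`-th
powers form a nontrivial additive difference set exactly in the three classical families. -/
theorem result (n : ℕ) :
    ∃ Q : ℕ, ∀ (K : Type) [Field K] [Finite K], Q < Nat.card K → n ∣ Nat.card K - 1 → 2 ≤ n →
      n < Nat.card K - 1 →
      ((∃ lam : ℕ, ∀ g : K, g ≠ 0 →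
        {x : K × K | (∃ y : K, y ≠ 0 ∧ x.1 = y ^ n) ∧ (∃ y : K, y ≠ 0 ∧ x.2 = y ^ n) ∧
          x.1 - x.2 = g}.ncard = lam) ↔
        (n = 2 ∧ Nat.card K % 4 = 3) ∨
        (n = 4 ∧ (∃ x : ℕ, Nat.card K = 4 * x ^ 2 + 1) ∧ Nat.card K % 8 = 5) ∨
        (n = 8 ∧ ∃ u v : ℕ, Nat.card K = 1 + 8 * u ^ 2 ∧ Nat.card K = 9 + 64 * v ^ 2)) :=
  Pool.Agent.P.MP_111ca2_co.IF.large n

end Pool.Agent.Results.MP_111ca2_co.LargeFields
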