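import Pool.Agent.K.MP_111ca2_co.C9
import Pool.Agent.K.MP_111ca2_co.C6
import Pool.Agent.K.MP_111ca2_co.C7
import Pool.Agent.K.MP_111ca2_co.C8

namespace Pool.Agent.Results.MP_111ca2_co.SmallChar

open Pool.Agent.P.MP_111ca2_co

/-- In a finite field of characteristic at most `11`, the non-zero `n`-th powers
(`n ∣ q - 1`, `2 ≤ n < q - 1`) form an additive difference set exactly in the Paley case. -/
theorem result (K : Type) [Field K] [Finite K] (hp : ringChar K ≤ 11) (n : ℕ)
    (hn : n ∣ Nat.card K - 1) (h2 : 2 ≤ n) (h3 : n < Nat.card K - 1) :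
    (∃ lam : ℕ, ∀ g : K, g ≠ 0 →
      {x : K × K | (∃ y : K, y ≠ 0 ∧ x.1 = y ^ n) ∧ (∃ y : K, y ≠ 0 ∧ x.2 = y ^ n) ∧
        x.1 - x.2 = g}.ncard = lam) ↔ n = 2 ∧ Nat.card K % 4 = 3 := by
  refine classify K ?_ (fun b h => by omega) n hn h2 h3
  have h : (ringChar K).Prime := CharP.char_is_prime K _
  generalize ringChar K = p at *
  interval_cases p <;> first
    | exact Or.inl rfl
    | exact Or.inr C3.cert
    | exact Or.inr C5.cert
    | exact Or.inr C7.cert
    | exact Or.inr C11.cert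
    | exact absurd h (by norm_num)

end Pool.Agent.Results.MP_111ca2_co.SmallChar
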